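import Mathlib

/-!
# Level functions on countable locally finite `p`-groups
-/

set_option autoImplicit false

namespace Pool.Agent.R769.UN

universe u

/-- a level function: the sets `{a | x ≤ v a}` are the terms of a central series with jumps of
order `p` -/
structure IsLevel (p : ℕ) {G : Type u} [Group G] {α : Type*} [LinearOrder α] (v : G → α) :
    Prop where
  top : ∀ a, v a ≤ v 1
  eq_one : ∀ a, v 1 ≤ v a → a = 1
  inv : ∀ a, v a ≤ v a⁻¹
  mul : ∀ a b, min (v a) (v b) ≤ v (a * b)
  comm : ∀ g a, a ≠ 1 → v a < v (g * a * g⁻¹ * a⁻¹)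
  cyc : ∀ a b, a ≠ 1 → v a = v b → ∃ k < p, v a < v (b * a⁻¹ ^ k)

theorem IsLevel.lt_one {p : ℕ} {G : Type u} [Group G] {α : Type*} [LinearOrder α] {v : G → α}
    (h : IsLevel p v) {a : G} (ha : a ≠ 1) : v a < v 1 :=
  lt_of_le_of_ne (h.top a) (fun he => ha (h.eq_one a he.ge))

theorem exists_central_order (p : ℕ) [Fact p.Prime] (K : Type u) [Group K] [Finite K]
    (hK : IsPGroup p K) [Nontrivial K] : ∃ z : K, orderOf z = p ∧ ∀ g : K, g * z = z * g := by
  have := hK.center_nontrivial
  have hc : IsPGroup p (Subgroup.center K) := hK.to_subgroup _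
  obtain ⟨n, hn⟩ := IsPGroup.iff_card.1 hc
  have hn0 : n ≠ 0 := by
    rintro rfl
    rw [pow_zero] at hn
    have := Finite.one_lt_card (α := Subgroup.center K)
    omega
  obtain ⟨z, hz⟩ := exists_prime_orderOf_dvd_card' (G := Subgroup.center K) p
    (by rw [hn]; exact dvd_pow_self p hn0)
  refine ⟨z, ?_, fun g => ?_⟩
  · rw [← hz]; exact Subgroup.orderOf_coe z
  · exact (Subgroup.mem_center_iff.1 z.2 g)

theorem exists_nat_level_aux (p : ℕ) [hp : Fact p.Prime] (n : ℕ) : ∀ (K : Type u) [Group K]
    [Finite K], IsPGroup p K → Nat.card K ≤ n → ∃ v : K → ℕ, IsLevel p v := by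
  induction n with
  | zero =>
    intro K _ _ _ hc
    have := Nat.card_pos (α := K)
    omega
  | succ n ih =>
    intro K _ _ hK hc
    rcases subsingleton_or_nontrivial K with hs | hs
    · refine ⟨fun _ => 0, ⟨fun _ => le_rfl, fun a _ => Subsingleton.elim _ _, fun _ => le_rfl,
        fun _ _ => by simp, fun g a ha => absurd (Subsingleton.elim _ _) ha,
        fun a b ha => absurd (Subsingleton.elim _ _) ha⟩⟩
    · classical
      obtain ⟨z, hz, hzc⟩ := exists_central_order p K hK
      set Z := Subgroup.zpowers z with hZ
      have hzcz : ∀ a ∈ Z, ∀ g, g * a = a * g := by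
        rintro a ⟨k, rfl⟩ g
        exact (Commute.zpow_right (hzc g) k)
      have hN : Z.Normal := ⟨fun a ha g => by rw [hzcz a ha g]; simpa using ha⟩
      have hcard : Nat.card K = Nat.card (K ⧸ Z) * Nat.card Z := Z.card_eq_card_quotient_mul_card_subgroup
      have hZc : Nat.card Z = p := by rw [hZ, Nat.card_zpowers, hz]
      have hlt : Nat.card (K ⧸ Z) ≤ n := by
        have h2 := hp.out.two_le
        have h3 : 0 < Nat.card (K ⧸ Z) := Nat.card_pos
        rw [hZc] at hcard
        nlinarith
      obtain ⟨v', hv'⟩ := ih (K ⧸ Z) (hK.to_quotient Z) hlt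
      set N := v' 1 with hNdef
      let v : K → ℕ := fun x => if x = 1 then N + 2 else if x ∈ Z then N + 1 else v' (x : K ⧸ Z)
      have v1 : v 1 = N + 2 := if_pos rfl
      have vZ : ∀ x ∈ Z, x ≠ 1 → v x = N + 1 := fun x hx h1 => by simp only [v, if_neg h1, if_pos hx]
      have vn : ∀ x, x ∉ Z → v x = v' (x : K ⧸ Z) := fun x hx => by
        have h1 : x ≠ 1 := by rintro rfl; exact hx Z.one_mem
        simp only [v, if_neg h1, if_neg hx]
      have vnl : ∀ x, x ∉ Z → v x ≤ N := fun x hx => by rw [vn x hx]; exact hv'.top _
      have vle : ∀ x, v x ≤ N + 2 := fun x => by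
        by_cases h1 : x = 1
        · rw [h1, v1]
        · by_cases h2 : x ∈ Z
          · rw [vZ x h2 h1]; omega
          · have := vnl x h2; omega
      have vge : ∀ x : K, v' (x : K ⧸ Z) ≤ v x := fun x => by
        by_cases h1 : x = 1
        · rw [h1, v1]
          have := hv'.top ((1 : K) : K ⧸ Z)
          omega
        · by_cases h2 : x ∈ Z
          · rw [vZ x h2 h1]
            have := hv'.top (x : K ⧸ Z)
            omega
          · rw [vn x h2]
      have hne1 : ∀ x : K, x ∉ Z → (x : K ⧸ Z) ≠ 1 := fun x hx h =>
        hx ((QuotientGroup.eq_one_iff x).1 h)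
      refine ⟨v, ⟨fun a => by rw [v1]; exact vle a, ?_, ?_, ?_, ?_, ?_⟩⟩
      · intro a ha
        by_contra h1
        rw [v1] at ha
        by_cases h2 : a ∈ Z
        · rw [vZ a h2 h1] at ha; omega
        · have := vnl a h2; omega
      · intro a
        by_cases h1 : a = 1
        · subst h1; simp
        · by_cases h2 : a ∈ Z
          · rw [vZ a h2 h1, vZ a⁻¹ (Z.inv_mem h2) (inv_ne_one.2 h1)]
          · rw [vn a h2, vn a⁻¹ (fun h => h2 (by simpa using Z.inv_mem h))]
            have := hv'.inv (a : K ⧸ Z)
            simpa using this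
      · intro a b
        by_cases hab : a * b ∈ Z
        · by_cases hab1 : a * b = 1
          · rw [hab1, v1]; exact (min_le_left _ _).trans (vle a)
          · rw [vZ _ hab hab1]
            by_cases ha1 : a = 1
            · have hb1 : b ≠ 1 := by rintro rfl; exact hab1 (by rw [ha1, mul_one])
              refine (min_le_right _ _).trans ?_
              by_cases h2 : b ∈ Z
              · rw [vZ b h2 hb1]
              · have := vnl b h2; omega
            · refine (min_le_left _ _).trans ?_
              by_cases h2 : a ∈ Z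
              · rw [vZ a h2 ha1]
              · have := vnl a h2; omega
        · rw [vn _ hab]
          by_cases ha : a ∈ Z
          · have hb : b ∉ Z := fun hb => hab (Z.mul_mem ha hb)
            have : ((a * b : K) : K ⧸ Z) = (b : K ⧸ Z) := by
              rw [QuotientGroup.mk_mul, (QuotientGroup.eq_one_iff a).2 ha, one_mul]
            rw [this, ← vn b hb]; exact min_le_right _ _
          · by_cases hb : b ∈ Z
            · have : ((a * b : K) : K ⧸ Z) = (a : K ⧸ Z) := by
                rw [QuotientGroup.mk_mul, (QuotientGroup.eq_one_iff b).2 hb, mul_one]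
              rw [this, ← vn a ha]; exact min_le_left _ _
            · rw [vn a ha, vn b hb, QuotientGroup.mk_mul]; exact hv'.mul _ _
      · intro g a ha
        by_cases h2 : a ∈ Z
        · have : g * a * g⁻¹ * a⁻¹ = 1 := by rw [hzcz a h2 g]; group
          rw [this, v1, vZ a h2 ha]; omega
        · rw [vn a h2]
          refine lt_of_lt_of_le (hv'.comm (g : K ⧸ Z) (a : K ⧸ Z) (hne1 a h2)) ?_
          have := vge (g * a * g⁻¹ * a⁻¹)
          simpa using this
      · intro a b ha hab
        by_cases h2 : a ∈ Z
        · have hb : b ∈ Z := by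
            by_contra hb
            rw [vZ a h2 ha] at hab
            have := vnl b hb
            omega
          have hbne : b ≠ 1 := by
            rintro rfl
            rw [vZ a h2 ha, v1] at hab; omega
          have hoa : orderOf a = p := by
            have h3 : orderOf a ∣ p := by
              rw [← hZc]
              have := Subgroup.orderOf_dvd_natCard Z h2
              exact this
            rcases (Nat.dvd_prime hp.out).1 h3 with h4 | h4
            · exact absurd (orderOf_eq_one_iff.1 h4) ha
            · exact h4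
          have hzp : Subgroup.zpowers a = Z := by
            apply Subgroup.eq_of_le_of_card_ge (Subgroup.zpowers_le.2 h2)
            rw [hZc, Nat.card_zpowers, hoa]
          have hb' : b ∈ Subgroup.zpowers a := by rw [hzp]; exact hb
          rw [← mem_powers_iff_mem_zpowers] at hb'
          obtain ⟨k, hk⟩ := hb'
          refine ⟨k % p, Nat.mod_lt _ hp.out.pos, ?_⟩
          have hk' : a ^ (k % p) = b := by
            rw [← hk]
            show a ^ (k % p) = a ^ k
            rw [← hoa, pow_mod_orderOf]
          rw [inv_pow, hk', mul_inv_cancel, v1, vZ a h2 ha]; omega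
        · have hb : b ∉ Z := by
            intro hb
            have h3 := vnl a h2
            rw [hab] at h3
            by_cases hb1 : b = 1
            · rw [hb1, v1] at h3; omega
            · rw [vZ b hb hb1] at h3; omega
          rw [vn a h2, vn b hb] at hab
          obtain ⟨k, hk, hk2⟩ := hv'.cyc (a : K ⧸ Z) (b : K ⧸ Z) (hne1 a h2) hab
          refine ⟨k, hk, ?_⟩
          rw [vn a h2]
          refine lt_of_lt_of_le hk2 ?_
          have := vge (b * a⁻¹ ^ k)
          simpa using this

theorem exists_nat_level (p : ℕ) [Fact p.Prime] (K : Type u) [Group K] [Finite K]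
    (hK : IsPGroup p K) : ∃ v : K → ℕ, IsLevel p v :=
  exists_nat_level_aux p (Nat.card K) K hK le_rfl

end Pool.Agent.R769.UN
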