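import Mathlib
import Pool.Agent.R769.UN.Level

/-!
# Rational level functions on countable locally finite `p`-groups, and their characters
-/

set_option autoImplicit false

namespace Pool.Agent.R769.UN

universe u

open Filter

/-- the relational form of a level function -/
structure IsRel (p : ℕ) {G : Type u} [Group G] (R : G → G → Prop) : Prop where
  total : ∀ a b, R a b ∨ R b a
  trans : ∀ a b c, R a b → R b c → R a c
  top : ∀ a, R a 1
  eq_one : ∀ a, R 1 a → a = 1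
  inv : ∀ a, R a a⁻¹
  mul : ∀ a b, R a (a * b) ∨ R b (a * b)
  comm : ∀ g a, a ≠ 1 → ¬ R (g * a * g⁻¹ * a⁻¹) a
  cyc : ∀ a b, a ≠ 1 → R a b → R b a → ∃ k < p, ¬ R (b * a⁻¹ ^ k) a

theorem exists_rel (p : ℕ) [Fact p.Prime] (G : Type u) [Group G] [Countable G]
    (hG : IsPGroup p G) (hLF : ∀ H : Subgroup G, H.FG → Finite H) :
    ∃ R : G → G → Prop, IsRel p R := by
  classical
  obtain ⟨f, hf⟩ := exists_surjective_nat G
  let K : ℕ → Subgroup G := fun n => Subgroup.closure (f '' {i | i ≤ n})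
  have hKfin : ∀ n, Finite (K n) := fun n => hLF _
    ⟨((Set.finite_le_nat n).image f).toFinset, by simp [K]⟩
  have hmem : ∀ x, ∀ᶠ n in (hyperfilter ℕ : Filter ℕ), x ∈ K n := by
    intro x
    obtain ⟨i, rfl⟩ := hf x
    have : ∀ᶠ n in atTop, f i ∈ K n := by
      filter_upwards [eventually_ge_atTop i] with n hn
      exact Subgroup.subset_closure ⟨i, hn, rfl⟩
    rw [← Nat.cofinite_eq_atTop] at this
    exact hyperfilter_le_cofinite this
  have hlev : ∀ n, ∃ v : K n → ℕ, IsLevel p v := fun n =>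
    exists_nat_level p (K n) (hG.to_subgroup _)
  choose v hv using hlev
  let Rn : ℕ → G → G → Prop := fun n x y =>
    ∃ (hx : x ∈ K n) (hy : y ∈ K n), v n ⟨x, hx⟩ ≤ v n ⟨y, hy⟩
  have Rn_iff : ∀ n x y (hx : x ∈ K n) (hy : y ∈ K n), Rn n x y ↔ v n ⟨x, hx⟩ ≤ v n ⟨y, hy⟩ :=
    fun n x y hx hy => ⟨fun ⟨_, _, h⟩ => h, fun h => ⟨hx, hy, h⟩⟩
  let R : G → G → Prop := fun x y => ∀ᶠ n in (hyperfilter ℕ : Filter ℕ), Rn n x y
  have hnot : ∀ x y, ¬ R x y ↔ ∀ᶠ n in (hyperfilter ℕ : Filter ℕ), ¬ Rn n x y := fun x y =>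
    Ultrafilter.eventually_not.symm
  refine ⟨R, ⟨?_, ?_, ?_, ?_, ?_, ?_, ?_, ?_⟩⟩
  · intro a b
    show (∀ᶠ n in _, _) ∨ (∀ᶠ n in _, _)
    rw [← Ultrafilter.eventually_or]
    filter_upwards [hmem a, hmem b] with n ha hb
    rw [Rn_iff n a b ha hb, Rn_iff n b a hb ha]
    exact le_total _ _
  · intro a b c hab hbc
    filter_upwards [hab, hbc] with n h1 h2
    obtain ⟨ha, hb, h1⟩ := h1
    obtain ⟨hb', hc, h2⟩ := h2
    exact ⟨ha, hc, h1.trans h2⟩
  · intro a
    filter_upwards [hmem a] with n ha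
    exact ⟨ha, (K n).one_mem, (hv n).top _⟩
  · intro a ha
    obtain ⟨n, _, h2, h3⟩ := ha.exists
    have := (hv n).eq_one _ h3
    exact congrArg Subtype.val this
  · intro a
    filter_upwards [hmem a] with n ha
    exact ⟨ha, (K n).inv_mem ha, (hv n).inv ⟨a, ha⟩⟩
  · intro a b
    show (∀ᶠ n in _, _) ∨ (∀ᶠ n in _, _)
    rw [← Ultrafilter.eventually_or]
    filter_upwards [hmem a, hmem b] with n ha hb
    rw [Rn_iff n a _ ha ((K n).mul_mem ha hb), Rn_iff n b _ hb ((K n).mul_mem ha hb)]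
    have := (hv n).mul ⟨a, ha⟩ ⟨b, hb⟩
    rcases min_le_iff.1 this with h | h
    · exact Or.inl h
    · exact Or.inr h
  · intro g a ha hcon
    obtain ⟨n, hg, ha', h1, h2, h3⟩ := ((hmem g).and ((hmem a).and hcon)).exists
    have := (hv n).comm ⟨g, hg⟩ ⟨a, ha'⟩ (fun h => ha (congrArg Subtype.val h))
    exact absurd h3 (not_le.2 this)
  · intro a b ha hab hba
    by_contra hcon
    push Not at hcon
    have hall : ∀ᶠ n in (hyperfilter ℕ : Filter ℕ), ∀ k ∈ Finset.range p,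
        Rn n (b * a⁻¹ ^ k) a := by
      rw [Finset.eventually_all]
      intro k hk
      exact hcon k (Finset.mem_range.1 hk)
    obtain ⟨n, ha', hb', h1, h2, h3⟩ :=
      ((hmem a).and ((hmem b).and (hab.and (hba.and hall)))).exists
    rw [Rn_iff n a b ha' hb'] at h1
    rw [Rn_iff n b a hb' ha'] at h2
    obtain ⟨k, hk, hk2⟩ := (hv n).cyc ⟨a, ha'⟩ ⟨b, hb'⟩ (fun h => ha (congrArg Subtype.val h))
      (le_antisymm h1 h2)
    obtain ⟨h4, h5, h6⟩ := h3 k (Finset.mem_range.2 hk)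
    exact absurd h6 (not_le.2 hk2)

theorem exists_rat_level (p : ℕ) [Fact p.Prime] (G : Type u) [Group G] [Countable G]
    (hG : IsPGroup p G) (hLF : ∀ H : Subgroup G, H.FG → Finite H) :
    ∃ v : G → ℚ, IsLevel p v := by
  classical
  obtain ⟨R, hR⟩ := exists_rel p G hG hLF
  have hrefl : ∀ a, R a a := fun a => (hR.total a a).elim id id
  let _ : Preorder G := { le := R, le_refl := hrefl, le_trans := hR.trans }
  have _ : Std.Total (α := G) (· ≤ ·) := ⟨hR.total⟩
  have _ : Countable (Antisymmetrization G (· ≤ ·)) := Quotient.countable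
  obtain ⟨e⟩ := Order.embedding_from_countable_to_dense (Antisymmetrization G (· ≤ ·)) ℚ
  let v : G → ℚ := fun a => e (toAntisymmetrization (· ≤ ·) a)
  have hle : ∀ a b, v a ≤ v b ↔ R a b := fun a b => by
    show e _ ≤ e _ ↔ _
    rw [e.le_iff_le, toAntisymmetrization_le_toAntisymmetrization_iff]
    rfl
  have hlt : ∀ a b, v a < v b ↔ ¬ R b a := fun a b => by rw [← hle, not_le]
  refine ⟨v, ⟨fun a => (hle _ _).2 (hR.top a), fun a ha => hR.eq_one a ((hle _ _).1 ha),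
    fun a => (hle _ _).2 (hR.inv a), fun a b => ?_, fun g a ha => (hlt _ _).2 (hR.comm g a ha),
    fun a b ha hab => ?_⟩⟩
  · rcases hR.mul a b with h | h
    · exact (min_le_left _ _).trans ((hle _ _).2 h)
    · exact (min_le_right _ _).trans ((hle _ _).2 h)
  · obtain ⟨k, hk, hk2⟩ := hR.cyc a b ha ((hle _ _).1 hab.le) ((hle _ _).1 hab.ge)
    exact ⟨k, hk, (hlt _ _).2 hk2⟩

end Pool.Agent.R769.UN
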