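import Mathlib
import Pool.Agent.R769.UN.Limit

/-!
# Characters attached to the levels
-/

set_option autoImplicit false

namespace Pool.Agent.R769.UN

universe u

section basic

variable {p : ℕ} {G : Type u} [Group G] {α : Type*} [LinearOrder α] {v : G → α}

theorem IsLevel.inv_eq (h : IsLevel p v) (a : G) : v a⁻¹ = v a :=
  le_antisymm (by simpa using h.inv a⁻¹) (h.inv a)

theorem IsLevel.le_mul (h : IsLevel p v) {x : α} {a b : G} (ha : x ≤ v a) (hb : x ≤ v b) :
    x ≤ v (a * b) := (le_min ha hb).trans (h.mul a b)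

theorem IsLevel.lt_mul (h : IsLevel p v) {x : α} {a b : G} (ha : x < v a) (hb : x < v b) :
    x < v (a * b) := (lt_min ha hb).trans_le (h.mul a b)

theorem IsLevel.le_conj (h : IsLevel p v) (g a : G) : v a ≤ v (g * a * g⁻¹) := by
  by_cases ha : a = 1
  · subst ha; simp
  · have h1 := h.comm g a ha
    have h2 : g * a * g⁻¹ = (g * a * g⁻¹ * a⁻¹) * a := by group
    rw [h2]; exact h.le_mul h1.le le_rfl

theorem IsLevel.conj_eq (h : IsLevel p v) (g a : G) : v (g * a * g⁻¹) = v a := by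
  apply le_antisymm _ (h.le_conj g a)
  have := h.le_conj g⁻¹ (g * a * g⁻¹)
  have e : g⁻¹ * (g * a * g⁻¹) * g⁻¹⁻¹ = a := by group
  rwa [e] at this

theorem IsLevel.le_pow (h : IsLevel p v) (a : G) (k : ℕ) : v a ≤ v (a ^ k) := by
  induction k with
  | zero => rw [pow_zero]; exact h.top a
  | succ k ih => rw [pow_succ]; exact h.le_mul ih le_rfl

theorem IsLevel.le_zpow (h : IsLevel p v) (a : G) (k : ℤ) : v a ≤ v (a ^ k) := by
  cases k with
  | ofNat k => simpa using h.le_pow a k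
  | negSucc k => rw [zpow_negSucc, h.inv_eq]; exact h.le_pow a _

theorem IsLevel.dvd_of_lt [hp : Fact p.Prime] (h : IsLevel p v) (hG : IsPGroup p G) (t : G) (k : ℤ)
    (hk : v t < v (t ^ k)) : (p : ℤ) ∣ k := by
  by_contra hcon
  obtain ⟨s, hs⟩ := hG t
  have hcop : IsCoprime k ((p : ℤ) ^ s) := by
    apply IsCoprime.pow_right
    rw [isCoprime_comm, Int.isCoprime_iff_gcd_eq_one]
    rcases (Nat.coprime_or_dvd_of_prime hp.out k.natAbs) with h1 | h1
    · exact h1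
    · exact absurd (Int.natCast_dvd.2 h1) hcon
  obtain ⟨a, b, hab⟩ := hcop
  have h1 : t = (t ^ k) ^ a := by
    have h2 : t ^ (((p : ℤ)) ^ s) = 1 := by
      have := hs
      rw [← Nat.cast_pow, zpow_natCast]; exact hs
    calc t = t ^ (a * k + b * (p : ℤ) ^ s) := by rw [hab, zpow_one]
      _ = (t ^ k) ^ a * (t ^ ((p : ℤ) ^ s)) ^ b := by
        rw [zpow_add, mul_comm a k, zpow_mul, mul_comm b, zpow_mul]
      _ = (t ^ k) ^ a := by rw [h2]; simp
  have h3 := h.le_zpow (t ^ k) a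
  rw [← h1] at h3
  exact absurd hk (not_lt.2 h3)

theorem IsLevel.lt_pow_p [hp : Fact p.Prime] (h : IsLevel p v) (hG : IsPGroup p G) (t : G)
    (ht : t ≠ 1) : v t < v (t ^ p) := by
  rcases lt_or_eq_of_le (h.le_pow t p) with h1 | h1
  · exact h1
  · obtain ⟨k, hk, hk2⟩ := h.cyc t (t ^ p) ht h1
    have h2 : t ^ p * t⁻¹ ^ k = t ^ ((p : ℤ) - k) := by
      rw [zpow_sub, zpow_natCast, zpow_natCast, inv_pow]
    rw [h2] at hk2
    have h3 := h.dvd_of_lt hG t _ hk2
    have h4 : (p : ℤ) ∣ k := by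
      have := dvd_sub (dvd_refl (p : ℤ)) h3
      simpa using this
    have h5 : k = 0 := Nat.eq_zero_of_dvd_of_lt (by exact_mod_cast h4) hk
    rw [h5] at hk2
    simpa using hk2

theorem IsLevel.lt_zpow_of_dvd [hp : Fact p.Prime] (h : IsLevel p v) (hG : IsPGroup p G) (t : G)
    (ht : t ≠ 1) (k : ℤ) (hk : (p : ℤ) ∣ k) : v t < v (t ^ k) := by
  obtain ⟨j, rfl⟩ := hk
  rw [zpow_mul, zpow_natCast]
  exact (h.lt_pow_p hG t ht).trans_le (h.le_zpow _ _)

theorem IsLevel.exists_zpow (h : IsLevel p v) (t a : G) (ht : t ≠ 1)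
    (hta : v t ≤ v a) : ∃ k : ℤ, v t < v (a * t ^ (-k)) := by
  rcases lt_or_eq_of_le hta with h1 | h1
  · exact ⟨0, by simpa using h1⟩
  · obtain ⟨k, _, hk⟩ := h.cyc t a ht h1
    refine ⟨k, ?_⟩
    rw [zpow_neg, zpow_natCast, ← inv_pow]; exact hk

theorem IsLevel.unique_zpow [hp : Fact p.Prime] (h : IsLevel p v) (hG : IsPGroup p G) (t a : G)
    (k j : ℤ) (hk : v t < v (a * t ^ (-k))) (hj : v t < v (a * t ^ (-j))) :
    (k : ZMod p) = j := by
  have h1 : (a * t ^ (-k))⁻¹ * (a * t ^ (-j)) = t ^ (k - j) := by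
    rw [mul_inv_rev, mul_assoc, inv_mul_cancel_left, ← zpow_neg, ← zpow_add]
    congr 1; ring
  have h2 : v t < v (t ^ (k - j)) := by
    rw [← h1]; exact h.lt_mul (by rwa [h.inv_eq]) hj
  have h3 := h.dvd_of_lt hG t _ h2
  have h4 := (ZMod.intCast_zmod_eq_zero_iff_dvd (k - j) p).2 h3
  push_cast at h4
  exact sub_eq_zero.1 h4

end basic

/-- level function together with the characters of the levels -/
structure LevelData (p : ℕ) (G : Type u) [Group G] where
  v : G → ℚ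
  χ : ℚ → G → ZMod p
  lv : IsLevel p v
  add : ∀ n a b, n ≤ v a → n ≤ v b → χ n (a * b) = χ n a + χ n b
  zero : ∀ n a, n < v a → χ n a = 0
  one : ∀ n, χ n 1 = 0
  ne : ∀ a, a ≠ 1 → χ (v a) a ≠ 0

theorem exists_levelData (p : ℕ) [hp : Fact p.Prime] (G : Type u) [Group G] [Countable G]
    (hG : IsPGroup p G) (hLF : ∀ H : Subgroup G, H.FG → Finite H) :
    Nonempty (LevelData p G) := by
  classical
  obtain ⟨v, h⟩ := exists_rat_level p G hG hLF
  let χ : ℚ → G → ZMod p := fun n a =>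
    if h1 : ∃ t, t ≠ 1 ∧ v t = n then
      (if h2 : ∃ k : ℤ, n < v (a * h1.choose ^ (-k)) then ((h2.choose : ℤ) : ZMod p) else 0)
    else 0
  have key : ∀ n, (∃ t, t ≠ 1 ∧ v t = n) → ∃ t, t ≠ 1 ∧ v t = n ∧ (∀ (a : G) (k : ℤ),
      n < v (a * t ^ (-k)) → χ n a = k) := by
    intro n h1
    refine ⟨h1.choose, h1.choose_spec.1, h1.choose_spec.2, ?_⟩
    intro a k hk
    have h2 : ∃ k : ℤ, n < v (a * h1.choose ^ (-k)) := ⟨k, hk⟩
    have h3 : χ n a = ((h2.choose : ℤ) : ZMod p) := by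
      simp only [χ]
      rw [dif_pos h1, dif_pos h2]
    rw [h3]
    have h4 := h2.choose_spec
    apply h.unique_zpow hG h1.choose a
    · rw [h1.choose_spec.2]; exact h4
    · rw [h1.choose_spec.2]; exact hk
  have hno : ∀ n a, (¬ ∃ t, t ≠ 1 ∧ v t = n) → χ n a = 0 := fun n a h1 => dif_neg h1
  have hzero : ∀ n a, n < v a → χ n a = 0 := by
    intro n a hna
    by_cases h1 : ∃ t, t ≠ 1 ∧ v t = n
    · obtain ⟨t, ht, htn, hk⟩ := key n h1
      have := hk a 0 (by simpa using hna)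
      simpa using this
    · exact hno n a h1
  refine ⟨⟨v, χ, h, ?_, hzero, ?_, ?_⟩⟩
  · intro n a b ha hb
    by_cases h1 : ∃ t, t ≠ 1 ∧ v t = n
    · obtain ⟨t, ht, htn, hk⟩ := key n h1
      obtain ⟨k, hk1⟩ := h.exists_zpow t a ht (by rw [htn]; exact ha)
      obtain ⟨j, hj1⟩ := h.exists_zpow t b ht (by rw [htn]; exact hb)
      rw [htn] at hk1 hj1
      rw [hk a k hk1, hk b j hj1]
      have h2 : n < v (a * b * t ^ (-(k + j))) := by
        have e : a * b * t ^ (-(k + j)) = (a * t ^ (-k)) * (t ^ k * (b * t ^ (-j)) * (t ^ k)⁻¹) := by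
          rw [neg_add_rev, zpow_add, ← zpow_neg]; group
        rw [e]
        exact h.lt_mul hk1 (by rw [h.conj_eq]; exact hj1)
      rw [hk (a * b) (k + j) h2]; push_cast; rfl
    · rw [hno n _ h1, hno n _ h1, hno n _ h1, add_zero]
  · intro n
    by_cases h1 : ∃ t, t ≠ 1 ∧ v t = n
    · obtain ⟨t, ht, htn⟩ := h1
      exact hzero n 1 (by rw [← htn]; exact h.lt_one ht)
    · exact hno n 1 h1
  · intro a ha h0
    obtain ⟨t, ht, htn, hk⟩ := key (v a) ⟨a, ha, rfl⟩
    obtain ⟨k, hk1⟩ := h.exists_zpow t a ht (by rw [htn])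
    rw [htn] at hk1
    have h2 := hk a k hk1
    rw [h0] at h2
    have h3 : (p : ℤ) ∣ k := (ZMod.intCast_zmod_eq_zero_iff_dvd k p).1 h2.symm
    have h4 := h.lt_zpow_of_dvd hG t ht k h3
    rw [htn] at h4
    have h5 : a = (a * t ^ (-k)) * t ^ k := by rw [mul_assoc, ← zpow_add]; simp
    have h6 := h.lt_mul hk1 h4
    rw [← h5] at h6
    exact absurd h6 (lt_irrefl _)

end Pool.Agent.R769.UN
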