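import Mathlib

/-!
# Triangular permutations of the finitely supported functions `ℚ →₀ ZMod p`
-/

set_option autoImplicit false

namespace Pool.Agent.R769.UN

/-- finitely supported functions on the rationals with values in `ZMod p` -/
abbrev X (p : ℕ) := ℚ →₀ ZMod p

/-- `u` changes only coordinates in `F`, and the change of the coordinate `l ∈ F` depends only on
the coordinates in `F` below `l`. -/
def InW (p : ℕ) (F : Finset ℚ) (u : Equiv.Perm (X p)) : Prop :=
  (∀ x : X p, ∀ m, m ∉ F → u x m = x m) ∧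
  ∀ x y : X p, ∀ l ∈ F, (∀ m ∈ F, m < l → x m = y m) → u x l - x l = u y l - y l

variable {p : ℕ} {F : Finset ℚ} {u w : Equiv.Perm (X p)}

theorem InW.one : InW p F 1 := ⟨fun _ _ _ => rfl, fun x y l _ _ => by simp⟩

theorem InW.agree (h : InW p F u) {l : ℚ} (x y : X p) (hxy : ∀ m ∈ F, m < l → x m = y m) :
    ∀ m ∈ F, m < l → u x m = u y m := by
  intro m hm hml
  have h1 := h.2 x y m hm (fun k hk hkm => hxy k hk (hkm.trans hml))
  rw [hxy m hm hml] at h1
  exact sub_left_injective h1

theorem InW.mul (h : InW p F u) (h' : InW p F w) : InW p F (u * w) := by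
  refine ⟨fun x m hm => ?_, fun x y l hl hxy => ?_⟩
  · rw [Equiv.Perm.mul_apply, h.1 _ _ hm, h'.1 _ _ hm]
  · have h1 := h.2 (w x) (w y) l hl (h'.agree x y hxy)
    have h2 := h'.2 x y l hl hxy
    rw [Equiv.Perm.mul_apply, Equiv.Perm.mul_apply]
    calc u (w x) l - x l = (u (w x) l - w x l) + (w x l - x l) := by ring
      _ = (u (w y) l - w y l) + (w y l - y l) := by rw [h1, h2]
      _ = _ := by ring

theorem InW.pow (h : InW p F u) (n : ℕ) : InW p F (u ^ n) := by
  induction n with
  | zero => simpa using InW.one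
  | succ n ih => rw [pow_succ]; exact ih.mul h

theorem InW.mono {F' : Finset ℚ} (h : InW p F u) (hF : F ⊆ F') : InW p F' u := by
  refine ⟨fun x m hm => h.1 x m (fun hm' => hm (hF hm')), fun x y l hl hxy => ?_⟩
  by_cases hlF : l ∈ F
  · exact h.2 x y l hlF (fun m hm hml => hxy m (hF hm) hml)
  · rw [h.1 x l hlF, h.1 y l hlF]; simp

theorem InW.fix_rank (h : InW p F u) (n : ℕ) : ∀ x : X p, ∀ m ∈ F,
    (F.filter (· < m)).card < n → (u ^ (p ^ n)) x m = x m := by
  induction n with
  | zero => intro x m _ hc; exact absurd hc (Nat.not_lt_zero _)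
  | succ n ih =>
    intro x m hm hc
    set w := u ^ (p ^ n) with hw
    have hwW : InW p F w := h.pow _
    have hlow : ∀ k ∈ F, k < m → ∀ y : X p, w y k = y k := by
      intro k hk hkm y
      apply ih y k hk
      have hlt : (F.filter (· < k)).card < (F.filter (· < m)).card := by
        apply Finset.card_lt_card
        rw [Finset.ssubset_iff_of_subset]
        · exact ⟨k, by simp [hk, hkm], by simp⟩
        · intro j hj
          rw [Finset.mem_filter] at hj ⊢
          exact ⟨hj.1, hj.2.trans hkm⟩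
      omega
    have hlowj : ∀ j : ℕ, ∀ k ∈ F, k < m → (w ^ j) x k = x k := by
      intro j
      induction j with
      | zero => intro k _ _; simp
      | succ j ihj =>
        intro k hk hkm
        rw [pow_succ', Equiv.Perm.mul_apply, hlow k hk hkm, ihj k hk hkm]
    have hj : ∀ j : ℕ, (w ^ j) x m = x m + j * (w x m - x m) := by
      intro j
      induction j with
      | zero => simp
      | succ j ihj =>
        have h1 := hwW.2 ((w ^ j) x) x m hm (fun k hk hkm => hlowj j k hk hkm)
        rw [pow_succ', Equiv.Perm.mul_apply]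
        have h2 : w ((w ^ j) x) m = (w ^ j) x m + (w x m - x m) := by rw [← h1]; ring
        rw [h2, ihj]; push_cast; ring
    have h3 : u ^ (p ^ (n + 1)) = w ^ p := by rw [hw, ← pow_mul, pow_succ]
    rw [h3, hj p, ZMod.natCast_self]; simp

theorem InW.pow_card (h : InW p F u) : u ^ (p ^ (F.card + 1)) = 1 := by
  ext1 x
  ext m
  by_cases hm : m ∈ F
  · rw [h.fix_rank (F.card + 1) x m hm (Nat.lt_succ_of_le (Finset.card_filter_le _ _))]; rfl
  · rw [(h.pow _).1 x m hm]; rfl

theorem InW.inv (hp : p ≠ 0) (h : InW p F u) : InW p F u⁻¹ := by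
  have h1 := h.pow_card
  have hpos : 0 < p ^ (F.card + 1) := pow_pos (Nat.pos_of_ne_zero hp) _
  have h2 : u⁻¹ = u ^ (p ^ (F.card + 1) - 1) := by
    apply inv_eq_of_mul_eq_one_left
    rw [← pow_succ, Nat.sub_add_cancel hpos, h1]
  rw [h2]; exact h.pow _

/-- extension by zero -/
noncomputable def extF (F : Finset ℚ) (a : F → ZMod p) : X p :=
  Finsupp.onFinset F (fun q => if h : q ∈ F then a ⟨q, h⟩ else 0) (by
    intro q hq
    by_contra hcon
    exact hq (dif_neg hcon))

theorem extF_apply (F : Finset ℚ) (a : F → ZMod p) (q : ℚ) (hq : q ∈ F) :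
    extF F a q = a ⟨q, hq⟩ := by
  simp [extF, hq]

theorem finite_InW (p : ℕ) [NeZero p] (F : Finset ℚ) : {u : Equiv.Perm (X p) | InW p F u}.Finite := by
  have : Finite {u : Equiv.Perm (X p) | InW p F u} := by
    let Φ : {u : Equiv.Perm (X p) | InW p F u} → (F → (F → ZMod p) → ZMod p) :=
      fun u l a => u.1 (extF F a) l - extF F a l
    apply Finite.of_injective Φ
    rintro ⟨u, hu⟩ ⟨w, hw⟩ heq
    apply Subtype.ext
    ext1 x
    ext m
    show u x m = w x m
    by_cases hm : m ∈ F
    · have hx : ∀ k ∈ F, k < m → x k = extF F (fun q : F => x q) k := by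
        intro k hk _
        rw [extF_apply F _ k hk]
      have h1 := hu.2 x _ m hm hx
      have h2 := hw.2 x _ m hm hx
      have h3 := congrFun (congrFun heq ⟨m, hm⟩) (fun q : F => x q)
      simp only [Φ] at h3
      rw [h3, ← h2] at h1
      exact sub_left_injective h1
    · rw [hu.1 x m hm, hw.1 x m hm]
  exact Set.toFinite _

end Pool.Agent.R769.UN
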