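import Mathlib
import Pool.Agent.R769.UN.Tower
import Pool.Agent.R769.UN.Char

/-!
# Coordinates on finite subgroups compatible with the levels
-/

set_option autoImplicit false

namespace Pool.Agent.R769.UN

universe u

variable {p : ℕ} {G : Type u} [Group G]

namespace LevelData

variable (D : LevelData p G)

theorem χ_inv {n : ℚ} {a : G} (h : n ≤ D.v a) : D.χ n a⁻¹ = - D.χ n a := by
  have h1 := D.add n a⁻¹ a (by rwa [D.lv.inv_eq]) h
  rw [inv_mul_cancel, D.one] at h1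
  exact eq_neg_of_add_eq_zero_left h1.symm

theorem χ_pow {n : ℚ} {a : G} (h : n ≤ D.v a) (k : ℕ) : D.χ n (a ^ k) = k * D.χ n a := by
  induction k with
  | zero => simp [D.one]
  | succ k ih =>
    rw [pow_succ, D.add n _ _ (h.trans (D.lv.le_pow a k)) h, ih]; push_cast; ring

theorem lt_of_χ {n : ℚ} {a : G} (h : n ≤ D.v a) (ha : a ≠ 1) (h0 : D.χ n a = 0) : n < D.v a := by
  rcases lt_or_eq_of_le h with h1 | h1
  · exact h1
  · rw [h1] at h0; exact absurd h0 (D.ne a ha)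

theorem eq_of_χ {n : ℚ} {a : G} (h : n ≤ D.v a) (h0 : D.χ n a ≠ 0) : D.v a = n := by
  rcases lt_or_eq_of_le h with h1 | h1
  · exact absurd (D.zero n a h1) h0
  · exact h1.symm

theorem ne_one_of_χ {n : ℚ} {a : G} (h0 : D.χ n a ≠ 0) : a ≠ 1 := by
  rintro rfl; exact h0 (D.one n)

end LevelData

/-- levels of a subgroup -/
def levs (D : LevelData p G) (K : Subgroup G) : Set ℚ := {m | ∃ a ∈ K, a ≠ 1 ∧ D.v a = m}

theorem levs_mono (D : LevelData p G) {K K' : Subgroup G} (h : K ≤ K') : levs D K ⊆ levs D K' := by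
  rintro m ⟨a, ha, h1, h2⟩; exact ⟨a, h ha, h1, h2⟩

/-- a finite subgroup with coordinates -/
structure Good (D : LevelData p G) where
  K : Subgroup G
  fin : Finite K
  c : G → X p
  diff : ∀ x ∈ K, ∀ y ∈ K, ∀ n ≤ D.v (x⁻¹ * y), c y n = c x n + D.χ n (x⁻¹ * y)
  supp : ∀ x ∈ K, ∀ m, m ∉ levs D K → c x m = 0
  surj : ∀ x : X p, ∃ g ∈ K, ∀ m ∈ levs D K, c g m = x m

/-- extension of coordinates -/
def Ext {D : LevelData p G} (P P' : Good D) : Prop := P.K ≤ P'.K ∧ (∀ x ∈ P.K, P'.c x = P.c x) ∧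
  ∀ y ∈ P'.K, ∃ g ∈ P.K, ∀ h ∈ P.K, (∀ m ∈ levs D P.K, P'.c (h * y) m = P.c (h * g) m) ∧
    (∀ m, m ∉ levs D P.K → P'.c (h * y) m = P'.c y m)

theorem Ext.refl {D : LevelData p G} (P : Good D) : Ext P P := by
  refine ⟨le_rfl, fun _ _ => rfl, fun y hy => ⟨y, hy, fun h hh => ⟨fun _ _ => rfl, fun m hm => ?_⟩⟩⟩
  rw [P.supp _ (P.K.mul_mem hh hy) m hm, P.supp _ hy m hm]

theorem Ext.trans {D : LevelData p G} {P P' P'' : Good D} (h1 : Ext P P') (h2 : Ext P' P'') :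
    Ext P P'' := by
  refine ⟨h1.1.trans h2.1, fun x hx => (h2.2.1 x (h1.1 hx)).trans (h1.2.1 x hx), fun y hy => ?_⟩
  obtain ⟨g', hg', h3⟩ := h2.2.2 y hy
  obtain ⟨g, hg, h4⟩ := h1.2.2 g' hg'
  refine ⟨g, hg, fun h hh => ⟨fun m hm => ?_, fun m hm => ?_⟩⟩
  · rw [(h3 h (h1.1 hh)).1 m (levs_mono D h1.1 hm), (h4 h hh).1 m hm]
  · by_cases hm' : m ∈ levs D P'.K
    · have e1 := (h3 1 P'.K.one_mem).1 m hm'
      rw [one_mul, one_mul] at e1
      rw [(h3 h (h1.1 hh)).1 m hm', (h4 h hh).2 m hm, e1]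
    · exact (h3 h (h1.1 hh)).2 m hm'

theorem Good.step [hp : Fact p.Prime] {D : LevelData p G} (P : Good D) (K1 : Subgroup G)
    (hle : P.K ≤ K1) [Finite K1] (hcard : Nat.card K1 = p * Nat.card P.K) :
    ∃ P' : Good D, P'.K = K1 ∧ Ext P P' := by
  classical
  have hPfin := P.fin
  obtain ⟨t0, ht0, hmax⟩ : ∃ t ∈ {x | x ∈ K1 ∧ x ∉ P.K}, ∀ y ∈ {x | x ∈ K1 ∧ x ∉ P.K},
      D.v y ≤ D.v t := by
    apply Set.exists_max_image
    · exact (Set.toFinite (K1 : Set G)).subset (fun x hx => hx.1)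
    · by_contra hcon
      have : K1 ≤ P.K := by
        intro x hx
        by_contra h
        exact hcon ⟨x, hx, h⟩
      have h2 : K1 = P.K := le_antisymm this hle
      rw [h2] at hcard
      have h3 : 0 < Nat.card P.K := Nat.card_pos
      have h4 := hp.out.two_le
      nlinarith
  set l := D.v t0 with hl
  have ht01 : t0 ≠ 1 := by rintro rfl; exact ht0.2 P.K.one_mem
  -- `l` is not a level of `P.K`
  have hnl : ∀ k ∈ P.K, k ≠ 1 → D.v k ≠ l := by
    intro k hk hk1 hkl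
    have hck : D.χ l k ≠ 0 := by rw [← hkl]; exact D.ne k hk1
    set j := (D.χ l t0 * (D.χ l k)⁻¹).val with hj
    have hj' : (j : ZMod p) = D.χ l t0 * (D.χ l k)⁻¹ := ZMod.natCast_zmod_val _
    have hlk : l ≤ D.v (k ^ j) := hkl.ge.trans (D.lv.le_pow k j)
    have hyK : t0 * (k ^ j)⁻¹ ∉ P.K := by
      intro h
      apply ht0.2
      have := P.K.mul_mem h (P.K.pow_mem hk j)
      simpa using this
    have hy1 : t0 * (k ^ j)⁻¹ ≠ 1 := by intro h; rw [h] at hyK; exact hyK P.K.one_mem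
    have hvy : l ≤ D.v (t0 * (k ^ j)⁻¹) := D.lv.le_mul le_rfl (by rwa [D.lv.inv_eq])
    have hχy : D.χ l (t0 * (k ^ j)⁻¹) = 0 := by
      rw [D.add l _ _ le_rfl (by rwa [D.lv.inv_eq]), D.χ_inv hlk, D.χ_pow hkl.ge, hj']
      field_simp
      ring
    have h2 := D.lt_of_χ hvy hy1 hχy
    exact absurd (hmax _ ⟨K1.mul_mem ht0.1 (K1.inv_mem (K1.pow_mem (hle hk) j)), hyK⟩)
      (not_le.2 h2)
  have hlK : l ∉ levs D P.K := by
    rintro ⟨a, ha, h1, h2⟩; exact hnl a ha h1 h2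
  -- normalised element
  obtain ⟨t, htK1, htχ⟩ : ∃ t ∈ K1, l ≤ D.v t ∧ D.χ l t = 1 := by
    have hc0 : D.χ l t0 ≠ 0 := D.ne t0 ht01
    refine ⟨t0 ^ ((D.χ l t0)⁻¹).val, K1.pow_mem ht0.1 _, D.lv.le_pow _ _, ?_⟩
    rw [D.χ_pow le_rfl, ZMod.natCast_zmod_val, inv_mul_cancel₀ hc0]
  obtain ⟨hlt, htχ⟩ := htχ
  have hvt : D.v t = l := D.eq_of_χ hlt (by rw [htχ]; exact one_ne_zero)
  have ht1 : t ≠ 1 := D.ne_one_of_χ (n := l) (by rw [htχ]; exact one_ne_zero)
  have hta : ∀ a : ZMod p, l ≤ D.v (t ^ a.val) := fun a => hlt.trans (D.lv.le_pow _ _)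
  have htaχ : ∀ a : ZMod p, D.χ l (t ^ a.val) = a := fun a => by
    rw [D.χ_pow hlt, htχ, mul_one, ZMod.natCast_zmod_val]
  have huniq : ∀ a b : ZMod p, t ^ a.val * (t ^ b.val)⁻¹ ∈ P.K → a = b := by
    intro a b hab
    by_contra hne
    have h1 : l ≤ D.v (t ^ a.val * (t ^ b.val)⁻¹) :=
      D.lv.le_mul (hta a) (by rw [D.lv.inv_eq]; exact hta b)
    have h2 : D.χ l (t ^ a.val * (t ^ b.val)⁻¹) = a - b := by
      rw [D.add l _ _ (hta a) (by rw [D.lv.inv_eq]; exact hta b), D.χ_inv (hta b), htaχ, htaχ]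
      ring
    have h3 : D.χ l (t ^ a.val * (t ^ b.val)⁻¹) ≠ 0 := by rw [h2]; exact sub_ne_zero.2 hne
    exact hnl _ hab (D.ne_one_of_χ h3) (D.eq_of_χ h1 h3)
  -- decomposition
  let Φ : P.K × ZMod p → K1 := fun q => ⟨q.1 * t ^ q.2.val, K1.mul_mem (hle q.1.2)
    (K1.pow_mem htK1 _)⟩
  have hΦinj : Function.Injective Φ := by
    rintro ⟨g, a⟩ ⟨g', b⟩ h
    have h1 : (g : G) * t ^ a.val = g' * t ^ b.val := congrArg Subtype.val h
    have h2 : t ^ a.val * (t ^ b.val)⁻¹ = (g : G)⁻¹ * g' := by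
      rw [eq_inv_mul_iff_mul_eq, ← mul_assoc, h1, mul_assoc, mul_inv_cancel, mul_one]
    have h3 : a = b := huniq a b (by rw [h2]; exact P.K.mul_mem (P.K.inv_mem g.2) g'.2)
    subst h3
    have h4 : (g : G) = g' := mul_right_cancel h1
    rw [Subtype.ext h4]
  have hΦ : Function.Bijective Φ := by
    apply hΦinj.bijective_of_nat_card_le
    rw [hcard, Nat.card_prod, Nat.card_zmod, mul_comm]
  have hdec : ∀ x ∈ K1, ∃ g ∈ P.K, ∃ a : ZMod p, x = g * t ^ a.val := by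
    intro x hx
    obtain ⟨⟨g, a⟩, hq⟩ := hΦ.2 ⟨x, hx⟩
    exact ⟨g, g.2, a, (congrArg Subtype.val hq).symm⟩
  choose q hq using hΦ.2
  let c' : G → X p := fun x => if h : x ∈ K1 then
    P.c (q ⟨x, h⟩).1 + Finsupp.single l (q ⟨x, h⟩).2 else 0
  have hc' : ∀ g ∈ P.K, ∀ a : ZMod p, c' (g * t ^ a.val) = P.c g + Finsupp.single l a := by
    intro g hg a
    have hx : g * t ^ a.val ∈ K1 := K1.mul_mem (hle hg) (K1.pow_mem htK1 _)
    have h1 : q ⟨_, hx⟩ = (⟨g, hg⟩, a) := hΦinj (hq _)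
    simp only [c']
    rw [dif_pos hx, h1]
  have hlevs : ∀ m ∈ levs D K1, m ∈ levs D P.K ∨ m = l := by
    rintro m ⟨x, hx, hx1, hxm⟩
    obtain ⟨g, hg, a, rfl⟩ := hdec x hx
    by_cases ha : a = 0
    · subst ha
      rw [ZMod.val_zero, pow_zero, mul_one] at hx1 hxm
      exact Or.inl ⟨g, hg, hx1, hxm⟩
    · rcases lt_or_ge (D.v g) l with h1 | h1
      · left
        refine ⟨g, hg, ?_, ?_⟩
        · rintro rfl
          exact absurd (D.lv.top t0) (not_le.2 h1)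
        · rw [← hxm]
          apply le_antisymm
          · exact D.lv.le_mul le_rfl (h1.le.trans (hta a))
          · by_contra hcon
            push Not at hcon
            have h2 := D.lv.lt_mul hcon (b := (t ^ a.val)⁻¹)
              (by rw [D.lv.inv_eq]; exact h1.trans_le (hta a))
            rw [mul_inv_cancel_right] at h2
            exact absurd h2 (lt_irrefl _)
      · right
        have h2 : D.χ l g = 0 := by
          by_cases hg1 : g = 1
          · rw [hg1]; exact D.one l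
          · exact D.zero l g (lt_of_le_of_ne h1 (fun h => hnl g hg hg1 h.symm))
        have h3 : D.χ l (g * t ^ a.val) = a := by
          rw [D.add l _ _ h1 (hta a), h2, htaχ, zero_add]
        rw [← hxm]
        exact D.eq_of_χ (D.lv.le_mul h1 (hta a)) (by rw [h3]; exact ha)
  have hsl : ∀ (a : ZMod p) (m : ℚ), m ≠ l → (Finsupp.single l a : X p) m = 0 := fun a m hm =>
    Finsupp.single_eq_of_ne hm
  have hsl' : ∀ (a : ZMod p), (Finsupp.single l a : X p) l = a := fun a => Finsupp.single_eq_same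
  refine ⟨⟨K1, inferInstance, c', ?_, ?_, ?_⟩, rfl, hle, ?_, ?_⟩
  · -- diff
    intro x hx y hy n hn
    obtain ⟨g, hg, a, rfl⟩ := hdec x hx
    obtain ⟨g', hg', b, rfl⟩ := hdec y hy
    rw [hc' g hg a, hc' g' hg' b, Finsupp.add_apply, Finsupp.add_apply]
    set z := (g * t ^ a.val)⁻¹ * (g' * t ^ b.val) with hz
    have hwz : g⁻¹ * g' = t ^ a.val * z * (t ^ b.val)⁻¹ := by rw [hz]; group
    have hzw : z = (t ^ a.val)⁻¹ * (g⁻¹ * g') * t ^ b.val := by rw [hz]; group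
    have hwK : g⁻¹ * g' ∈ P.K := P.K.mul_mem (P.K.inv_mem hg) hg'
    have hχl : l ≤ D.v z → D.χ l z = b - a ∧ D.χ l (g⁻¹ * g') = 0 := by
      intro h1
      have hw : l ≤ D.v (g⁻¹ * g') := by
        rw [hwz]
        exact D.lv.le_mul (D.lv.le_mul (hta a) h1) (by rw [D.lv.inv_eq]; exact hta b)
      have hw0 : D.χ l (g⁻¹ * g') = 0 := by
        by_cases hw1 : g⁻¹ * g' = 1
        · rw [hw1]; exact D.one l
        · exact D.zero l _ (lt_of_le_of_ne hw (fun h => hnl _ hwK hw1 h.symm))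
      refine ⟨?_, hw0⟩
      rw [hzw, D.add l _ _ (D.lv.le_mul (by rw [D.lv.inv_eq]; exact hta a) hw) (hta b),
        D.add l _ _ (by rw [D.lv.inv_eq]; exact hta a) hw, D.χ_inv (hta a), htaχ, htaχ, hw0]
      ring
    rcases lt_trichotomy n l with h1 | h1 | h1
    · rw [hsl a n h1.ne, hsl b n h1.ne, add_zero, add_zero]
      have e1 : D.χ n (t ^ a.val) = 0 := D.zero n _ (h1.trans_le (hta a))
      have e2 : D.χ n (t ^ b.val)⁻¹ = 0 := D.zero n _ (by rw [D.lv.inv_eq]; exact h1.trans_le (hta b))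
      have f1 : n ≤ D.v (t ^ a.val) := h1.le.trans (hta a)
      have f2 : n ≤ D.v (t ^ b.val)⁻¹ := by rw [D.lv.inv_eq]; exact h1.le.trans (hta b)
      have hw : n ≤ D.v (g⁻¹ * g') := by
        rw [hwz]; exact D.lv.le_mul (D.lv.le_mul f1 hn) f2
      rw [P.diff g hg g' hg' n hw, hwz, D.add n _ _ (D.lv.le_mul f1 hn) f2, D.add n _ _ f1 hn, e1,
        e2]
      ring
    · subst h1
      obtain ⟨h2, h3⟩ := hχl hn
      rw [P.supp g hg l hlK, P.supp g' hg' l hlK, hsl', hsl', h2]; ring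
    · have h2 : l ≤ D.v z := h1.le.trans hn
      obtain ⟨h3, h4⟩ := hχl h2
      rw [D.zero l z (h1.trans_le hn)] at h3
      have hab : b = a := (sub_eq_zero.1 h3.symm)
      subst hab
      have hw : D.v (g⁻¹ * g') = D.v z := by rw [hwz, D.lv.conj_eq]
      rw [hsl b n h1.ne', add_zero, add_zero, P.diff g hg g' hg' n (by rw [hw]; exact hn)]
      congr 1
      by_cases hz1 : z = 1
      · rw [hwz, hz1]; simp
      · have e1 : g⁻¹ * g' = (t ^ b.val * z * (t ^ b.val)⁻¹ * z⁻¹) * z := by rw [hwz]; group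
        have e2 := hn.trans_lt (D.lv.comm (t ^ b.val) z hz1)
        rw [e1, D.add n _ _ e2.le hn, D.zero n _ e2, zero_add]
  · -- supp
    intro x hx m hm
    obtain ⟨g, hg, a, rfl⟩ := hdec x hx
    have h1 : m ∉ levs D P.K := fun h => hm (levs_mono D hle h)
    have h2 : m ≠ l := by
      rintro rfl
      exact hm ⟨t, htK1, ht1, hvt⟩
    rw [hc' g hg a, Finsupp.add_apply, P.supp g hg m h1, hsl a m h2, add_zero]
  · -- surj
    intro x
    obtain ⟨g, hg, h1⟩ := P.surj x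
    refine ⟨g * t ^ (x l).val, K1.mul_mem (hle hg) (K1.pow_mem htK1 _), fun m hm => ?_⟩
    rw [hc' g hg, Finsupp.add_apply]
    rcases hlevs m hm with h2 | h2
    · have h3 : m ≠ l := by rintro rfl; exact hlK h2
      rw [hsl _ m h3, add_zero, h1 m h2]
    · subst h2
      rw [P.supp g hg l hlK, hsl', zero_add]
  · intro x hx
    have h1 := hc' x hx 0
    rw [ZMod.val_zero, pow_zero, mul_one, Finsupp.single_zero, add_zero] at h1
    exact h1
  · intro y hy
    obtain ⟨g, hg, a, rfl⟩ := hdec y hy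
    refine ⟨g, hg, fun h hh => ⟨fun m hm => ?_, fun m hm => ?_⟩⟩
    · have h3 : m ≠ l := by rintro rfl; exact hlK hm
      show c' (h * (g * t ^ a.val)) m = _
      rw [← mul_assoc, hc' (h * g) (P.K.mul_mem hh hg) a, Finsupp.add_apply, hsl a m h3, add_zero]
    · show c' (h * (g * t ^ a.val)) m = c' (g * t ^ a.val) m
      rw [← mul_assoc, hc' (h * g) (P.K.mul_mem hh hg) a, hc' g hg a, Finsupp.add_apply,
        Finsupp.add_apply, P.supp _ (P.K.mul_mem hh hg) m hm, P.supp _ hg m hm]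

end Pool.Agent.R769.UN
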