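import Mathlib
import Pool.Agent.R769.UN.Coord

/-!
# Embedding countable locally finite `p`-groups
-/

set_option autoImplicit false

namespace Pool.Agent.R769.UN

universe u

variable {p : ℕ} {G : Type u} [Group G]

theorem Good.extend [hp : Fact p.Prime] {D : LevelData p G} (hG : IsPGroup p G) (n : ℕ) :
    ∀ (P : Good D) (H : Subgroup G), P.K ≤ H → Finite H → Nat.card H = p ^ n * Nat.card P.K →
    ∃ P' : Good D, P'.K = H ∧ Ext P P' := by
  induction n with
  | zero =>
    intro P H hle hfin hcard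
    rw [pow_zero, one_mul] at hcard
    have : P.K = H := Subgroup.eq_of_le_of_card_ge hle hcard.le
    exact ⟨P, this, Ext.refl P⟩
  | succ n ih =>
    intro P H hle hfin hcard
    have hPfin := P.fin
    obtain ⟨m, hm⟩ := IsPGroup.iff_card.1 (hG.to_subgroup P.K)
    have hK' : Nat.card (P.K.subgroupOf H) = p ^ m := by
      rw [← hm]
      exact Nat.card_congr (Subgroup.subgroupOfEquivOfLe hle).toEquiv
    obtain ⟨K1, hK1, hK1'⟩ := Sylow.exists_subgroup_card_pow_succ (p := p) (n := m)
      (by rw [hcard, hm, ← pow_add]; exact pow_dvd_pow p (by omega)) hK'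
    have hcard1 : Nat.card (K1.map H.subtype) = p * Nat.card P.K := by
      rw [Subgroup.card_map_of_injective H.subtype_injective, hK1, hm, pow_succ, mul_comm]
    have hle1 : P.K ≤ K1.map H.subtype := by
      intro x hx
      exact ⟨⟨x, hle hx⟩, hK1' (by rw [Subgroup.mem_subgroupOf]; exact hx), rfl⟩
    have hle2 : K1.map H.subtype ≤ H := Subgroup.map_subtype_le K1
    have hfin1 : Finite (K1.map H.subtype) := by
      apply Nat.finite_of_card_ne_zero
      rw [hcard1]
      exact Nat.mul_ne_zero hp.out.ne_zero Nat.card_pos.ne'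
    obtain ⟨P1, hP1, hE1⟩ := P.step (K1.map H.subtype) hle1 hcard1
    obtain ⟨P2, hP2, hE2⟩ := ih P1 H (by rw [hP1]; exact hle2) hfin
      (by rw [hP1, hcard1, hcard, pow_succ, mul_assoc])
    exact ⟨P2, hP2, hE1.trans hE2⟩

theorem Good.next [hp : Fact p.Prime] {D : LevelData p G} (hG : IsPGroup p G)
    (hLF : ∀ H : Subgroup G, H.FG → Finite H) (P : Good D) (g : G) :
    ∃ P' : Good D, Ext P P' ∧ g ∈ P'.K := by
  have hPfin := P.fin
  set H := P.K ⊔ Subgroup.zpowers g with hH
  have hPfg : P.K.FG := (Group.fg_iff_subgroup_fg P.K).1 inferInstance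
  have hfg : H.FG := hPfg.sup ⟨{g}, by simp [Subgroup.zpowers_eq_closure]⟩
  have hfin := hLF H hfg
  obtain ⟨a, ha⟩ := IsPGroup.iff_card.1 (hG.to_subgroup P.K)
  obtain ⟨b, hb⟩ := IsPGroup.iff_card.1 (hG.to_subgroup H)
  have hle : P.K ≤ H := le_sup_left
  have hab : a ≤ b := by
    have := Subgroup.card_dvd_of_le hle
    rw [ha, hb] at this
    exact (Nat.pow_dvd_pow_iff_le_right hp.out.one_lt).1 this
  obtain ⟨P', hP', hE⟩ := Good.extend hG (b - a) P H hle hfin
    (by rw [ha, hb, ← pow_add, Nat.sub_add_cancel hab])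
  exact ⟨P', hE, by rw [hP']; exact (le_sup_right : _ ≤ H) (Subgroup.mem_zpowers g)⟩

/-- coordinates on the trivial subgroup -/
noncomputable def Good.bot (D : LevelData p G) : Good D where
  K := ⊥
  fin := inferInstance
  c := fun _ => 0
  diff := by
    intro x hx y hy n _
    rw [Subgroup.mem_bot] at hx hy
    subst hx; subst hy
    simp [D.one]
  supp := fun _ _ _ _ => rfl
  surj := fun x => ⟨1, Subgroup.one_mem _, fun m hm => by
    obtain ⟨a, ha, h1, _⟩ := hm
    exact absurd (Subgroup.mem_bot.1 ha) h1⟩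

/-- the global coordinates -/
structure Total (D : LevelData p G) (K : ℕ → Subgroup G) (c : G → X p) : Prop where
  mono : Monotone K
  fin : ∀ n, Finite (K n)
  cover : ∀ g, ∃ n, g ∈ K n
  diff : ∀ x y, ∀ n ≤ D.v (x⁻¹ * y), c y n = c x n + D.χ n (x⁻¹ * y)
  supp : ∀ n, ∀ x ∈ K n, ∀ m, m ∉ levs D (K n) → c x m = 0
  surj : ∀ n, ∀ x : X p, ∃ g ∈ K n, ∀ m ∈ levs D (K n), c g m = x m
  compat : ∀ n y, ∃ g ∈ K n, ∀ h ∈ K n, (∀ m ∈ levs D (K n), c (h * y) m = c (h * g) m) ∧
    (∀ m, m ∉ levs D (K n) → c (h * y) m = c y m)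

theorem exists_total [hp : Fact p.Prime] [Countable G] (D : LevelData p G) (hG : IsPGroup p G)
    (hLF : ∀ H : Subgroup G, H.FG → Finite H) : ∃ K c, Total D K c := by
  classical
  obtain ⟨f, hf⟩ := exists_surjective_nat G
  choose nx hnx1 hnx2 using fun (P : Good D) (g : G) => P.next hG hLF g
  let seq : ℕ → Good D := fun n => Nat.rec (Good.bot D) (fun n P => nx P (f n)) n
  have hseq : ∀ n, seq (n + 1) = nx (seq n) (f n) := fun n => rfl
  have hext : ∀ m n, m ≤ n → Ext (seq m) (seq n) := by
    intro m n hmn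
    induction hmn with
    | refl => exact Ext.refl _
    | step h ih => exact ih.trans (by rw [hseq]; exact hnx1 _ _)
  have hmem : ∀ n, f n ∈ (seq (n + 1)).K := fun n => by rw [hseq]; exact hnx2 _ _
  choose ix hix using hf
  let c : G → X p := fun x => (seq (ix x + 1)).c x
  have hixm : ∀ x, x ∈ (seq (ix x + 1)).K := fun x => by
    have := hmem (ix x)
    rwa [hix] at this
  have hc : ∀ n, ∀ x ∈ (seq n).K, c x = (seq n).c x := by
    intro n x hx
    rcases le_total n (ix x + 1) with h | h
    · exact (hext _ _ h).2.1 x hx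
    · exact ((hext _ _ h).2.1 x (hixm x)).symm
  have hmono : Monotone (fun n => (seq n).K) := fun m n h => (hext m n h).1
  have htwo : ∀ x y : G, ∃ n, x ∈ (seq n).K ∧ y ∈ (seq n).K := fun x y =>
    ⟨max (ix x + 1) (ix y + 1), hmono (le_max_left _ _) (hixm x), hmono (le_max_right _ _) (hixm y)⟩
  refine ⟨fun n => (seq n).K, c, ⟨hmono, fun n => (seq n).fin, fun g => ⟨ix g + 1, hixm g⟩, ?_, ?_, ?_, ?_⟩⟩
  · intro x y n hn
    obtain ⟨k, hx, hy⟩ := htwo x y
    rw [hc k x hx, hc k y hy]
    exact (seq k).diff x hx y hy n hn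
  · intro n x hx m hm
    rw [hc n x hx]
    exact (seq n).supp x hx m hm
  · intro n x
    obtain ⟨g, hg, h⟩ := (seq n).surj x
    exact ⟨g, hg, fun m hm => by rw [hc n g hg]; exact h m hm⟩
  · intro n y
    set k := max n (ix y + 1) with hk
    have hy : y ∈ (seq k).K := hmono (le_max_right _ _) (hixm y)
    have hE := hext n k (le_max_left _ _)
    obtain ⟨g, hg, h⟩ := hE.2.2 y hy
    refine ⟨g, hg, fun a ha => ⟨fun m hm => ?_, fun m hm => ?_⟩⟩
    · rw [hc k (a * y) ((seq k).K.mul_mem (hE.1 ha) hy), hc n (a * g) ((seq n).K.mul_mem ha hg)]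
      exact (h a ha).1 m hm
    · rw [hc k (a * y) ((seq k).K.mul_mem (hE.1 ha) hy), hc k y hy]
      exact (h a ha).2 m hm

/-- the set of all levels -/
def allLev (D : LevelData p G) : Set ℚ := {m | ∃ a, a ≠ 1 ∧ D.v a = m}

theorem Total.supp_all {D : LevelData p G} {K : ℕ → Subgroup G} {c : G → X p} (T : Total D K c)
    (x : G) (m : ℚ) (hm : m ∉ allLev D) : c x m = 0 := by
  obtain ⟨n, hn⟩ := T.cover x
  exact T.supp n x hn m (fun ⟨a, _, h1, h2⟩ => hm ⟨a, h1, h2⟩)

theorem Total.inj {D : LevelData p G} {K : ℕ → Subgroup G} {c : G → X p} (T : Total D K c) :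
    Function.Injective c := by
  intro x y hxy
  by_contra hne
  have h1 : x⁻¹ * y ≠ 1 := fun h => hne (inv_mul_eq_one.1 h)
  have h2 := T.diff x y _ le_rfl
  rw [hxy] at h2
  exact D.ne _ h1 (by simpa using h2)

theorem Total.finite_levs {D : LevelData p G} {K : ℕ → Subgroup G} {c : G → X p} (T : Total D K c)
    (n : ℕ) : (levs D (K n)).Finite := by
  have := T.fin n
  apply ((Set.toFinite (K n : Set G)).image D.v).subset
  rintro m ⟨a, ha, _, rfl⟩
  exact ⟨a, ha, rfl⟩

theorem Total.surj_all {D : LevelData p G} {K : ℕ → Subgroup G} {c : G → X p} (T : Total D K c)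
    (x : X p) (hx : ∀ m, m ∉ allLev D → x m = 0) : ∃ g, c g = x := by
  have h1 : ∀ S : Finset ℚ, (∀ m ∈ S, m ∈ allLev D) → ∃ n, ∀ m ∈ S, m ∈ levs D (K n) := by
    intro S
    induction S using Finset.induction_on with
    | empty => intro _; exact ⟨0, by simp⟩
    | insert a S _ ih =>
      intro hS
      obtain ⟨n, hn⟩ := ih (fun m hm => hS m (Finset.mem_insert_of_mem hm))
      obtain ⟨b, hb1, hb2⟩ := hS a (Finset.mem_insert_self _ _)
      obtain ⟨k, hk⟩ := T.cover b
      refine ⟨max n k, fun m hm => ?_⟩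
      rcases Finset.mem_insert.1 hm with rfl | hm
      · exact ⟨b, T.mono (le_max_right _ _) hk, hb1, hb2⟩
      · exact levs_mono D (T.mono (le_max_left _ _)) (hn m hm)
  obtain ⟨n, hn⟩ := h1 x.support (fun m hm => by
    by_contra hcon
    exact (Finsupp.mem_support_iff.1 hm) (hx m hcon))
  obtain ⟨g, hg, h2⟩ := T.surj n x
  refine ⟨g, ?_⟩
  ext m
  by_cases hm : m ∈ levs D (K n)
  · exact h2 m hm
  · rw [T.supp n g hg m hm]
    by_contra hcon
    exact hm (hn m (Finsupp.mem_support_iff.2 (fun h => hcon h.symm)))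

/-- the functions vanishing on all levels -/
def Rest (D : LevelData p G) : Type := {z : X p // ∀ m ∈ allLev D, z m = 0}

open Classical in
theorem exists_equiv {D : LevelData p G} {K : ℕ → Subgroup G} {c : G → X p} (T : Total D K c) :
    ∃ e : G × Rest D ≃ X p, ∀ g z, e (g, z) = c g + z.1 := by
  let e : G × Rest D → X p := fun q => c q.1 + q.2.1
  have hinj : Function.Injective e := by
    rintro ⟨g, z⟩ ⟨g', z'⟩ h
    have h1 : ∀ m, c g m + z.1 m = c g' m + z'.1 m := fun m => by
      have := DFunLike.congr_fun h m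
      simpa [e] using this
    have h2 : c g = c g' := by
      ext m
      by_cases hm : m ∈ allLev D
      · have := h1 m
        rwa [z.2 m hm, z'.2 m hm, add_zero, add_zero] at this
      · rw [T.supp_all g m hm, T.supp_all g' m hm]
    have h3 := T.inj h2
    subst h3
    have h4 : z = z' := by
      apply Subtype.ext
      exact add_left_cancel (a := c g) h
    rw [h4]
  have hsurj : Function.Surjective e := by
    intro x
    obtain ⟨g, hg⟩ := T.surj_all (x.filter (· ∈ allLev D)) (fun m hm => by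
      rw [Finsupp.filter_apply_neg _ _ hm])
    refine ⟨(g, ⟨x.filter (fun m => ¬ m ∈ allLev D), fun m hm => ?_⟩), ?_⟩
    · exact Finsupp.filter_apply_neg _ _ (not_not.2 hm)
    · show c g + _ = x
      rw [hg]; exact Finsupp.filter_add_filter_not x _
  exact ⟨Equiv.ofBijective e ⟨hinj, hsurj⟩, fun g z => rfl⟩

/-- **Countable locally finite `p`-groups embed in the group of triangular permutations.** -/
theorem exists_embedding (p : ℕ) [hp : Fact p.Prime] (G : Type u) [Group G] [Countable G]
    (hG : IsPGroup p G) (hLF : ∀ H : Subgroup G, H.FG → Finite H) :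
    ∃ f : G →* Equiv.Perm (X p), Function.Injective f ∧ ∀ g, ∃ F : Finset ℚ, InW p F (f g) := by
  classical
  obtain ⟨D⟩ := exists_levelData p G hG hLF
  obtain ⟨K, c, T⟩ := exists_total D hG hLF
  obtain ⟨e, he⟩ := exists_equiv T
  let f : G →* Equiv.Perm (X p) :=
    { toFun := fun g => e.permCongr (Equiv.prodCongr (Equiv.mulLeft g) (Equiv.refl _))
      map_one' := by
        ext1 x
        obtain ⟨⟨a, z⟩, rfl⟩ := e.surjective x
        simp [Equiv.permCongr_apply]
      map_mul' := by
        intro g h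
        ext1 x
        obtain ⟨⟨a, z⟩, rfl⟩ := e.surjective x
        simp [Equiv.permCongr_apply, mul_assoc] }
  have hf : ∀ g a z, f g (e (a, z)) = e (g * a, z) := by
    intro g a z
    show e.permCongr (Equiv.prodCongr (Equiv.mulLeft g) (Equiv.refl _)) (e (a, z)) = _
    simp [Equiv.permCongr_apply]
  refine ⟨f, ?_, ?_⟩
  · intro g h hgh
    let z : Rest D := ⟨0, fun _ _ => rfl⟩
    have h1 := hf g 1 z
    rw [hgh, hf h 1 z] at h1
    have h2 := e.injective h1
    have h3 := congrArg Prod.fst h2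
    simpa using h3.symm
  · intro g
    obtain ⟨n, hn⟩ := T.cover g
    have hfin := T.finite_levs n
    refine ⟨hfin.toFinset, ?_, ?_⟩
    · intro x m hm
      rw [Set.Finite.mem_toFinset] at hm
      obtain ⟨⟨a, z⟩, rfl⟩ := e.surjective x
      rw [hf, he, he, Finsupp.add_apply, Finsupp.add_apply]
      obtain ⟨b, hb, h1⟩ := T.compat n a
      rw [(h1 g hn).2 m hm]
    · intro x y l hl hxy
      rw [Set.Finite.mem_toFinset] at hl
      obtain ⟨⟨a, z⟩, rfl⟩ := e.surjective x
      obtain ⟨⟨b, z'⟩, rfl⟩ := e.surjective y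
      have hall : ∀ m ∈ levs D (K n), m ∈ allLev D := fun m ⟨a, _, h1, h2⟩ => ⟨a, h1, h2⟩
      have hagree : ∀ m ∈ levs D (K n), m < l → c a m = c b m := by
        intro m hm hml
        have := hxy m (hfin.mem_toFinset.2 hm) hml
        rwa [he, he, Finsupp.add_apply, Finsupp.add_apply, z.2 m (hall m hm), z'.2 m (hall m hm),
          add_zero, add_zero] at this
      obtain ⟨a', ha', h1⟩ := T.compat n a
      obtain ⟨b', hb', h2⟩ := T.compat n b
      have ha1 : ∀ m ∈ levs D (K n), c a m = c a' m := fun m hm => by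
        simpa using (h1 1 (K n).one_mem).1 m hm
      have hb1 : ∀ m ∈ levs D (K n), c b m = c b' m := fun m hm => by
        simpa using (h2 1 (K n).one_mem).1 m hm
      have hlow : ∀ m < l, c a' m = c b' m := by
        intro m hml
        by_cases hm : m ∈ levs D (K n)
        · rw [← ha1 m hm, ← hb1 m hm]; exact hagree m hm hml
        · rw [T.supp n a' ha' m hm, T.supp n b' hb' m hm]
      have hlv : l ≤ D.v (a'⁻¹ * b') := by
        by_cases h3 : a'⁻¹ * b' = 1
        · rw [h3]
          obtain ⟨u, _, _, hu⟩ := hl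
          rw [← hu]; exact D.lv.top u
        · by_contra hcon
          push Not at hcon
          have h4 := T.diff a' b' _ le_rfl
          rw [hlow _ hcon] at h4
          exact D.ne _ h3 (by simpa using h4)
      rw [hf, hf, he, he, he, he, Finsupp.add_apply, Finsupp.add_apply, Finsupp.add_apply,
        Finsupp.add_apply, (h1 g hn).1 l hl, (h2 g hn).1 l hl, ha1 l hl, hb1 l hl,
        T.diff a' b' l hlv]
      have h5 : (g * a')⁻¹ * (g * b') = a'⁻¹ * b' := by group
      have h6 := T.diff (g * a') (g * b') l (by rw [h5]; exact hlv)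
      rw [h6, h5]
      ring

end Pool.Agent.R769.UN
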