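import Mathlib
import Pool.Agent.R769.UN.Embed

/-!
# Periodic locally nilpotent groups
-/

set_option autoImplicit false

namespace Pool.Agent.R769.UN

universe u

theorem map_derivedSeries_commutator {G : Type u} [Group G] (n : ℕ) :
    (derivedSeries (commutator G) n).map (commutator G).subtype = derivedSeries G (n + 1) := by
  induction n with
  | zero =>
    rw [derivedSeries_zero, ← MonoidHom.range_eq_map, Subgroup.range_subtype]
    rfl
  | succ n ih => rw [derivedSeries_succ, Subgroup.map_commutator, ih]; rfl

theorem finOrder_sub {G : Type u} [Group G] (ht : ∀ g : G, IsOfFinOrder g) (H : Subgroup G)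
    (h : H) : IsOfFinOrder h := (H.subtype_injective.isOfFinOrder_iff (f := H.subtype)).1 (ht h)

theorem finite_of_fg_solvable_aux (n : ℕ) : ∀ (G : Type u) [Group G], Group.FG G →
    (∀ g : G, IsOfFinOrder g) → derivedSeries G n = ⊥ → Finite G := by
  induction n with
  | zero =>
    intro G _ _ _ h
    have h1 : (⊤ : Subgroup G) = ⊥ := h
    have h2 : Subsingleton G := (Subgroup.subsingleton_iff).1 (subsingleton_of_bot_eq_top h1.symm)
    infer_instance
  | succ n ih =>
    intro G _ hfg ht h
    have hfgab : Group.FG (Abelianization G) := QuotientGroup.fg (commutator G)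
    have hab : Finite (Abelianization G) := by
      apply CommGroup.finite_of_fg_isMulTorsion
      intro x
      obtain ⟨g, rfl⟩ := QuotientGroup.mk_surjective x
      exact (Abelianization.of : G →* Abelianization G).isOfFinOrder (ht g)
    have hind : (commutator G).FiniteIndex := by
      have : Finite (G ⧸ commutator G) := hab
      exact Subgroup.finiteIndex_of_finite_quotient
    have hA : Finite (commutator G) := by
      apply ih (commutator G) inferInstance
      · exact finOrder_sub ht _
      · have h1 := map_derivedSeries_commutator (G := G) n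
        rw [h] at h1
        exact (Subgroup.map_eq_bot_iff_of_injective _ (commutator G).subtype_injective).1 h1
    have : Finite (G ⧸ commutator G) := hab
    exact Finite.of_subgroup_quotient (commutator G)

theorem finite_of_fg_nilpotent {G : Type u} [Group G] (ht : ∀ g : G, IsOfFinOrder g)
    (hn : ∀ H : Subgroup G, H.FG → Group.IsNilpotent H) (H : Subgroup G) (hH : H.FG) :
    Finite H := by
  have h1 : Group.IsNilpotent H := hn H hH
  have h2 : Group.IsSolvable H := inferInstance
  obtain ⟨n, hn⟩ := h2.solvable
  exact finite_of_fg_solvable_aux n H ((Group.fg_iff_subgroup_fg H).2 hH)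
    (finOrder_sub ht H) hn

/-- in a finite nilpotent group the elements of order prime to `p` form a subgroup -/
theorem coprime_mul {G : Type u} [Group G] [Finite G] [Group.IsNilpotent G] {p : ℕ}
    [hp : Fact p.Prime] (x y : G) (hx : (orderOf x).Coprime p) (hy : (orderOf y).Coprime p) :
    (orderOf (x * y)).Coprime p := by
  obtain ⟨e⟩ := ((Group.isNilpotent_of_finite_tfae (G := G)).out 0 4 rfl rfl).1 inferInstance
  have key : ∀ a : (∀ q : (Nat.card G).primeFactors, ∀ P : Sylow q G, (P : Subgroup G)),
      (orderOf a).Coprime p ↔ ∀ q : (Nat.card G).primeFactors, (q : ℕ) = p → ∀ P, a q P = 1 := by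
    intro a
    have hdvd : ∀ q P, orderOf (a q P) ∣ orderOf a := fun q P => by
      apply orderOf_dvd_of_pow_eq_one
      have := congrFun (congrFun (pow_orderOf_eq_one a) q) P
      exact this
    have hpow : ∀ q P, ∃ k, orderOf (a q P) ∣ (q : ℕ) ^ k := fun q P => by
      obtain ⟨k, hk⟩ := P.isPGroup' (a q P)
      exact ⟨k, orderOf_dvd_of_pow_eq_one hk⟩
    constructor
    · intro h q hq P
      obtain ⟨k, hk⟩ := hpow q P
      have h3 : (orderOf (a q P)).Coprime ((q : ℕ) ^ k) :=
        Nat.Coprime.pow_right k (by
          have h4 : (orderOf a).Coprime (q : ℕ) := by rw [hq]; exact h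
          exact Nat.Coprime.coprime_dvd_left (hdvd _ _) h4)
      exact orderOf_eq_one_iff.1 (Nat.Coprime.eq_one_of_dvd h3 hk)
    · intro h
      rw [Nat.coprime_comm, hp.out.coprime_iff_not_dvd]
      rintro ⟨n, hn⟩
      have ha0 : orderOf a ≠ 0 := by
        have : Finite (∀ q : (Nat.card G).primeFactors, ∀ P : Sylow q G, (P : Subgroup G)) :=
          Finite.of_equiv G e.symm.toEquiv
        exact (orderOf_pos a).ne'
      have h1 : a ^ n = 1 := by
        funext q P
        show (a q P) ^ n = 1
        by_cases hq : (q : ℕ) = p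
        · rw [h q hq P, one_pow]
        · obtain ⟨k, hk⟩ := hpow q P
          have hqp : (q : ℕ).Prime := Nat.prime_of_mem_primeFactors q.2
          have h2 : (orderOf (a q P)).Coprime p := by
            apply Nat.Coprime.coprime_dvd_left hk
            exact Nat.Coprime.pow_left k ((Nat.coprime_primes hqp hp.out).2 hq)
          have h3 : orderOf (a q P) ∣ p * n := by rw [← hn]; exact hdvd q P
          exact orderOf_dvd_iff_pow_eq_one.1 (h2.dvd_of_dvd_mul_left h3)
      have h2 := orderOf_dvd_of_pow_eq_one h1
      have hn0 : n ≠ 0 := by rintro rfl; exact ha0 (by rw [hn, mul_zero])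
      have h3 := Nat.le_of_dvd (Nat.pos_of_ne_zero hn0) h2
      rw [hn] at h3
      have h4 := hp.out.two_le
      have h5 : 0 < n := Nat.pos_of_ne_zero hn0
      nlinarith
  have ho : ∀ x : G, orderOf (e.symm x) = orderOf x := fun x => e.symm.orderOf_eq x
  rw [← ho, key] at hx hy ⊢
  intro q hq P
  rw [map_mul, Pi.mul_apply, Pi.mul_apply, hx q hq P, hy q hq P, one_mul]

/-- the elements of order prime to `p` -/
def primeTo {G : Type u} [Group G] (ht : ∀ g : G, IsOfFinOrder g)
    (hn : ∀ H : Subgroup G, H.FG → Group.IsNilpotent H) (p : ℕ) [hp : Fact p.Prime] :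
    Subgroup G where
  carrier := {g | (orderOf g).Coprime p}
  one_mem' := by simp
  inv_mem' := by intro x hx; simpa using hx
  mul_mem' := by
    intro x y hx hy
    classical
    have hfg : (Subgroup.closure {x, y}).FG := ⟨{x, y}, by simp⟩
    have h1 := finite_of_fg_nilpotent ht hn _ hfg
    have h2 : Group.IsNilpotent (Subgroup.closure {x, y}) := hn _ hfg
    have hx' : x ∈ Subgroup.closure {x, y} := Subgroup.subset_closure (by simp)
    have hy' : y ∈ Subgroup.closure {x, y} := Subgroup.subset_closure (by simp)
    have h3 := coprime_mul (G := Subgroup.closure {x, y}) (p := p) ⟨x, hx'⟩ ⟨y, hy'⟩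
      (by rw [Subgroup.orderOf_mk]; exact hx) (by rw [Subgroup.orderOf_mk]; exact hy)
    rw [← Subgroup.orderOf_coe] at h3
    exact h3

instance {G : Type u} [Group G] (ht : ∀ g : G, IsOfFinOrder g)
    (hn : ∀ H : Subgroup G, H.FG → Group.IsNilpotent H) (p : ℕ) [hp : Fact p.Prime] :
    (primeTo ht hn p).Normal := by
  constructor
  intro x hx g
  have h1 : orderOf (g * x * g⁻¹) = orderOf x := by
    have := (MulAut.conj g).orderOf_eq x
    simpa using this
  show (orderOf (g * x * g⁻¹)).Coprime p
  rw [h1]; exact hx

theorem isPGroup_quot {G : Type u} [Group G] (ht : ∀ g : G, IsOfFinOrder g)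
    (hn : ∀ H : Subgroup G, H.FG → Group.IsNilpotent H) (p : ℕ) [hp : Fact p.Prime] :
    IsPGroup p (G ⧸ primeTo ht hn p) := by
  intro x
  obtain ⟨g, rfl⟩ := QuotientGroup.mk_surjective x
  have h0 : orderOf g ≠ 0 := (orderOf_pos_iff.2 (ht g)).ne'
  refine ⟨(orderOf g).factorization p, ?_⟩
  rw [← QuotientGroup.mk_pow, QuotientGroup.eq_one_iff]
  show (orderOf (g ^ p ^ (orderOf g).factorization p)).Coprime p
  rw [orderOf_pow_of_dvd (pow_ne_zero _ hp.out.ne_zero) (Nat.ordProj_dvd _ _), Nat.coprime_comm]
  exact Nat.coprime_ordCompl hp.out h0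

theorem locFin_quot {G : Type u} [Group G] (N : Subgroup G) [N.Normal]
    (hLF : ∀ H : Subgroup G, H.FG → Finite H) (H : Subgroup (G ⧸ N)) (hH : H.FG) : Finite H := by
  classical
  obtain ⟨S, hS⟩ := hH
  have h1 : (Subgroup.closure ((S.image Quotient.out : Finset G) : Set G)).FG := ⟨_, rfl⟩
  have h2 := hLF _ h1
  have h3 : (Subgroup.closure ((S.image Quotient.out : Finset G) : Set G)).map
      (QuotientGroup.mk' N) = H := by
    rw [MonoidHom.map_closure, ← hS]
    congr 1
    ext x
    simp only [Finset.coe_image, Set.mem_image, Finset.mem_coe]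
    constructor
    · rintro ⟨y, ⟨z, hz, rfl⟩, rfl⟩
      have : (QuotientGroup.mk' N) (Quotient.out z) = z := QuotientGroup.out_eq' z
      rw [this]; exact hz
    · intro hx
      exact ⟨Quotient.out x, ⟨x, hx, rfl⟩, QuotientGroup.out_eq' x⟩
  rw [← h3]
  have h4 : ((Subgroup.closure ((S.image Quotient.out : Finset G) : Set G)).map
      (QuotientGroup.mk' N) : Set (G ⧸ N)).Finite := by
    rw [Subgroup.coe_map]
    exact Set.Finite.image _ (Set.toFinite _)
  exact h4

end Pool.Agent.R769.UN
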