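import Mathlib
import Pool.Agent.R769.UN.Nilp

/-!
# A universal countable periodic locally nilpotent group
-/

set_option autoImplicit false

namespace Pool.Agent.R769.UN

universe u

instance (p : Nat.Primes) : Fact (p : ℕ).Prime := ⟨p.2⟩

/-- the full product -/
abbrev Prod' := ∀ p : Nat.Primes, Equiv.Perm (X p)

/-- `u` lives over the finitely many primes `P` and the finitely many coordinates `F` -/
def InH (P : Finset Nat.Primes) (F : Finset ℚ) (u : Prod') : Prop :=
  (∀ p, p ∉ P → u p = 1) ∧ ∀ p : Nat.Primes, InW p F (u p)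

theorem InH.mono {P P' : Finset Nat.Primes} {F F' : Finset ℚ} {u : Prod'} (h : InH P F u)
    (hP : P ⊆ P') (hF : F ⊆ F') : InH P' F' u :=
  ⟨fun p hp => h.1 p (fun h' => hp (hP h')), fun p => (h.2 p).mono hF⟩

/-- the subgroup over `P`, `F` -/
def Hsub (P : Finset Nat.Primes) (F : Finset ℚ) : Subgroup Prod' where
  carrier := {u | InH P F u}
  one_mem' := ⟨fun _ _ => rfl, fun _ => InW.one⟩
  mul_mem' := fun {a b} ha hb => ⟨fun p hp => by
    rw [Pi.mul_apply, ha.1 p hp, hb.1 p hp, one_mul], fun p => (ha.2 p).mul (hb.2 p)⟩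
  inv_mem' := fun {a} ha => ⟨fun p hp => by rw [Pi.inv_apply, ha.1 p hp, inv_one],
    fun p => (ha.2 p).inv p.2.ne_zero⟩

/-- the triangular permutations with coordinates in `F` -/
def Wsub (p : Nat.Primes) (F : Finset ℚ) : Subgroup (Equiv.Perm (X p)) where
  carrier := {u | InW p F u}
  one_mem' := InW.one
  mul_mem' := fun ha hb => ha.mul hb
  inv_mem' := fun ha => ha.inv p.2.ne_zero

instance (p : Nat.Primes) (F : Finset ℚ) : Finite (Wsub p F) := by
  have : NeZero (p : ℕ) := ⟨p.2.ne_zero⟩
  exact (finite_InW p F).to_subtype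

theorem isPGroup_Wsub (p : Nat.Primes) (F : Finset ℚ) : IsPGroup p (Wsub p F) := fun g =>
  ⟨F.card + 1, Subtype.ext (InW.pow_card g.2)⟩

/-- restriction to the primes in `P` -/
def resH (P : Finset Nat.Primes) (F : Finset ℚ) : Hsub P F →* (∀ p : P, Wsub p F) where
  toFun := fun u p => ⟨u.1 p, u.2.2 p⟩
  map_one' := rfl
  map_mul' := fun _ _ => rfl

theorem resH_inj (P : Finset Nat.Primes) (F : Finset ℚ) : Function.Injective (resH P F) := by
  intro u w h
  apply Subtype.ext
  funext p
  by_cases hp : p ∈ P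
  · exact congrArg Subtype.val (congrFun h ⟨p, hp⟩)
  · rw [u.2.1 p hp, w.2.1 p hp]

instance (P : Finset Nat.Primes) (F : Finset ℚ) : Finite (Hsub P F) :=
  Finite.of_injective _ (resH_inj P F)

instance (P : Finset Nat.Primes) (F : Finset ℚ) : Group.IsNilpotent (Hsub P F) := by
  have h1 : ∀ p : P, Group.IsNilpotent (Wsub p F) := fun p => (isPGroup_Wsub p F).isNilpotent
  have h2 : Group.IsNilpotent (∀ p : P, Wsub p F) := inferInstance
  apply Subgroup.isNilpotent_of_ker_le_center (resH P F)
  rw [(MonoidHom.ker_eq_bot_iff (resH P F)).2 (resH_inj P F)]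
  exact bot_le

/-- the universal group -/
def Univ : Subgroup Prod' where
  carrier := {u | ∃ P F, InH P F u}
  one_mem' := ⟨∅, ∅, (Hsub ∅ ∅).one_mem⟩
  mul_mem' := by
    classical
    rintro a b ⟨P, F, ha⟩ ⟨P', F', hb⟩
    exact ⟨P ∪ P', F ∪ F', (Hsub _ _).mul_mem
      (ha.mono Finset.subset_union_left Finset.subset_union_left)
      (hb.mono Finset.subset_union_right Finset.subset_union_right)⟩
  inv_mem' := by
    rintro a ⟨P, F, ha⟩
    exact ⟨P, F, (Hsub P F).inv_mem ha⟩

instance : Countable Univ := by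
  have h1 : (Univ : Set Prod') = ⋃ q : Finset Nat.Primes × Finset ℚ, {u | InH q.1 q.2 u} := by
    ext u
    simp only [SetLike.mem_coe, Set.mem_iUnion, Set.mem_ofPred_eq]
    exact ⟨fun ⟨P, F, h⟩ => ⟨(P, F), h⟩, fun ⟨q, h⟩ => ⟨q.1, q.2, h⟩⟩
  have h2 : (Univ : Set Prod').Countable := by
    rw [h1]
    apply Set.countable_iUnion
    intro q
    have : Finite (Hsub q.1 q.2) := inferInstance
    exact (Set.toFinite (Hsub q.1 q.2 : Set Prod')).countable
  exact h2.to_subtype

theorem univ_finOrder (g : Univ) : IsOfFinOrder g := by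
  obtain ⟨u, P, F, h⟩ := g
  have h1 : IsOfFinOrder (⟨u, h⟩ : Hsub P F) := isOfFinOrder_of_finite _
  have h2 : IsOfFinOrder u := (Hsub P F).subtype.isOfFinOrder h1
  exact (Univ.subtype_injective.isOfFinOrder_iff (f := Univ.subtype)).1 h2

theorem univ_nilpotent (H : Subgroup Univ) (hH : H.FG) : Group.IsNilpotent H := by
  classical
  obtain ⟨S, hS⟩ := hH
  have h1 : ∀ S : Finset Univ, ∃ P F, ∀ u ∈ S, InH P F u.1 := by
    intro S
    induction S using Finset.induction_on with
    | empty => exact ⟨∅, ∅, by simp⟩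
    | insert a S _ ih =>
      obtain ⟨P, F, h⟩ := ih
      obtain ⟨P', F', h'⟩ := a.2
      refine ⟨P ∪ P', F ∪ F', fun u hu => ?_⟩
      rcases Finset.mem_insert.1 hu with rfl | hu
      · exact h'.mono Finset.subset_union_right Finset.subset_union_right
      · exact (h u hu).mono Finset.subset_union_left Finset.subset_union_left
  obtain ⟨P, F, h⟩ := h1 S
  have h2 : ∀ u ∈ H, InH P F u.1 := by
    have : H ≤ (Hsub P F).comap Univ.subtype := by
      rw [← hS, Subgroup.closure_le]
      intro u hu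
      exact h u hu
    exact this
  let f : H →* Hsub P F :=
    { toFun := fun u => ⟨u.1.1, h2 u.1 u.2⟩
      map_one' := rfl
      map_mul' := fun _ _ => rfl }
  have hf : Function.Injective f := by
    intro a b hab
    have : a.1.1 = b.1.1 := congrArg (fun w : Hsub P F => w.1) hab
    exact Subtype.ext (Subtype.ext this)
  apply Subgroup.isNilpotent_of_ker_le_center f
  rw [(MonoidHom.ker_eq_bot_iff f).2 hf]
  exact bot_le

theorem exists_embedding_univ (G : Type u) [Group G] [Countable G]
    (ht : ∀ g : G, IsOfFinOrder g)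
    (hn : ∀ H : Subgroup G, H.FG → Group.IsNilpotent H) :
    ∃ f : G →* Univ, Function.Injective f := by
  classical
  have hLF := finite_of_fg_nilpotent ht hn
  have h1 : ∀ p : Nat.Primes, ∃ f : (G ⧸ primeTo ht hn p) →* Equiv.Perm (X p),
      Function.Injective f ∧ ∀ g, ∃ F : Finset ℚ, InW p F (f g) := fun p =>
    have : Countable (G ⧸ primeTo ht hn p) := Quotient.countable
    exists_embedding p _ (isPGroup_quot ht hn p) (locFin_quot _ hLF)
  choose f hf hF using h1
  have hmem : ∀ g : G, (fun p => f p (g : G ⧸ primeTo ht hn p) : Prod') ∈ Univ := by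
    intro g
    choose F hF' using fun p => hF p (g : G ⧸ primeTo ht hn p)
    have h0 : orderOf g ≠ 0 := (orderOf_pos_iff.2 (ht g)).ne'
    let P : Finset Nat.Primes := (orderOf g).primeFactors.subtype _
    have hP : ∀ p : Nat.Primes, p ∉ P → f p (g : G ⧸ primeTo ht hn p) = 1 := by
      intro p hp
      have : (g : G ⧸ primeTo ht hn p) = 1 := by
        rw [QuotientGroup.eq_one_iff]
        show (orderOf g).Coprime p
        rw [Nat.coprime_comm, p.2.coprime_iff_not_dvd]
        intro hd
        exact hp (Finset.mem_subtype.2 (Nat.mem_primeFactors.2 ⟨p.2, hd, h0⟩))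
      rw [this, map_one]
    refine ⟨P, P.biUnion F, hP, fun p => ?_⟩
    by_cases hp : p ∈ P
    · exact (hF' p).mono (Finset.subset_biUnion_of_mem F hp)
    · show InW p _ (f p (g : G ⧸ primeTo ht hn p))
      rw [hP p hp]; exact InW.one
  refine ⟨{ toFun := fun g => ⟨_, hmem g⟩, map_one' := ?_, map_mul' := ?_ }, ?_⟩
  · apply Subtype.ext
    funext p
    show f p ((1 : G) : G ⧸ primeTo ht hn p) = 1
    rw [QuotientGroup.mk_one, map_one]
  · intro a b
    apply Subtype.ext
    funext p
    show f p ((a * b : G) : G ⧸ primeTo ht hn p) = f p (a : G ⧸ primeTo ht hn p) * f p (b : G ⧸ primeTo ht hn p)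
    rw [QuotientGroup.mk_mul, map_mul]
  · rw [injective_iff_map_eq_one]
    intro g hg
    have h2 : ∀ p : Nat.Primes, f p (g : G ⧸ primeTo ht hn p) = 1 := fun p =>
      congrFun (congrArg Subtype.val hg) p
    have h3 : ∀ p : Nat.Primes, (orderOf g).Coprime p := fun p => by
      have h4 := (injective_iff_map_eq_one (f p)).1 (hf p) _ (h2 p)
      exact (QuotientGroup.eq_one_iff g).1 h4
    by_contra hne
    have h5 : orderOf g ≠ 1 := fun h => hne (orderOf_eq_one_iff.1 h)
    obtain ⟨q, hq, hqd⟩ := Nat.exists_prime_and_dvd h5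
    have h6 := h3 ⟨q, hq⟩
    rw [Nat.coprime_comm, hq.coprime_iff_not_dvd] at h6
    exact h6 hqd

end Pool.Agent.R769.UN
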